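import Pool.Agent.E8helper23.SG.Stm

/-!
# The sums of `m ^ (-β)` (project SG, piece POWS)
-/

set_option autoImplicit false

namespace Pool.Agent.E8helper41.SG

open Finset Filter Topology
open Pool.Agent.E8helper23.SG

lemma mvt {β : ℝ} (h1 : β < 1) (h0 : 0 ≤ β) {a b : ℝ} (ha : 0 < a) (hab : a ≤ b) :
    (b - a) * b ^ (-β) ≤ b ^ (1 - β) / (1 - β) - a ^ (1 - β) / (1 - β) ∧
      b ^ (1 - β) / (1 - β) - a ^ (1 - β) / (1 - β) ≤ (b - a) * a ^ (-β) := by
  rcases hab.eq_or_lt with rfl | hlt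
  · simp
  have hp : (0 : ℝ) < 1 - β := by linarith
  have hd : ∀ x : ℝ, 0 < x →
      HasDerivAt (fun x : ℝ => x ^ (1 - β) / (1 - β)) (x ^ (-β)) x := by
    intro x hx
    have h := (Real.hasDerivAt_rpow_const (x := x) (p := 1 - β) (Or.inl hx.ne')).div_const (1 - β)
    have e : (1 - β) * x ^ (1 - β - 1) / (1 - β) = x ^ (-β) := by
      rw [mul_comm, mul_div_assoc, div_self hp.ne', mul_one]
      congr 1
      ring
    rwa [e] at h
  obtain ⟨c, hc, e⟩ := exists_hasDerivAt_eq_slope (fun x : ℝ => x ^ (1 - β) / (1 - β))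
    (fun x => x ^ (-β)) hlt
    (fun x hx => (hd x (lt_of_lt_of_le ha hx.1)).continuousAt.continuousWithinAt)
    (fun x hx => hd x (lt_trans ha hx.1))
  have hba : 0 < b - a := by linarith
  have e' : b ^ (1 - β) / (1 - β) - a ^ (1 - β) / (1 - β) = (b - a) * c ^ (-β) := by
    rw [e]
    field_simp
  have hc0 : 0 < c := lt_trans ha hc.1
  rw [e']
  constructor
  · apply mul_le_mul_of_nonneg_left _ hba.le
    exact Real.rpow_le_rpow_of_nonpos hc0 hc.2.le (by linarith)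
  · apply mul_le_mul_of_nonneg_left _ hba.le
    exact Real.rpow_le_rpow_of_nonpos ha hc.1.le (by linarith)

theorem t_POWS : S_POWS := by
  intro β hβ hβ1
  have h0 : 0 ≤ β := by linarith
  have hp : (0 : ℝ) < 1 - β := by linarith
  set h : ℝ → ℝ := fun y => y ^ (1 - β) / (1 - β) with hh
  set s : ℕ → ℝ := fun N => ∑ m ∈ Icc 1 N, (m : ℝ) ^ (-β) with hs
  have hsucc : ∀ N : ℕ, s (N + 1) = s N + ((N + 1 : ℕ) : ℝ) ^ (-β) := by
    intro N
    simp only [hs]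
    rw [Finset.sum_Icc_succ_top (by omega)]
  -- `A n = s (n+1) - h (n+1)` is antitone, `B n = A n - (n+1)^(-β)` is monotone
  set A : ℕ → ℝ := fun n => s (n + 1) - h ((n + 1 : ℕ) : ℝ) with hA
  have hst : ∀ n : ℕ, ((n + 1 + 1 : ℕ) : ℝ) ^ (-β) ≤
      h ((n + 1 + 1 : ℕ) : ℝ) - h ((n + 1 : ℕ) : ℝ) ∧
      h ((n + 1 + 1 : ℕ) : ℝ) - h ((n + 1 : ℕ) : ℝ) ≤ ((n + 1 : ℕ) : ℝ) ^ (-β) := by
    intro n
    have hm := mvt hβ1 h0 (a := ((n + 1 : ℕ) : ℝ)) (b := ((n + 1 + 1 : ℕ) : ℝ)) (by positivity)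
      (by push_cast; linarith)
    have e : ((n + 1 + 1 : ℕ) : ℝ) - ((n + 1 : ℕ) : ℝ) = 1 := by push_cast; ring
    rw [e, one_mul, one_mul] at hm
    exact hm
  have hanti : Antitone A := by
    apply antitone_nat_of_succ_le
    intro n
    simp only [hA]
    rw [hsucc (n + 1)]
    have := (hst n).1
    linarith
  set B : ℕ → ℝ := fun n => A n - ((n + 1 : ℕ) : ℝ) ^ (-β) with hB
  have hmono : Monotone B := by
    apply monotone_nat_of_le_succ
    intro n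
    simp only [hB, hA]
    rw [hsucc (n + 1)]
    have := (hst n).2
    linarith
  have hBA : ∀ n, B n ≤ A n := by
    intro n
    have : 0 ≤ ((n + 1 : ℕ) : ℝ) ^ (-β) := by positivity
    simp only [hB]
    linarith
  have hBAall : ∀ m n, B m ≤ A n := by
    intro m n
    exact (hmono (le_max_left m n)).trans ((hBA _).trans (hanti (le_max_right m n)))
  -- the limit
  set κ : ℝ := ⨅ n, A n with hκ
  have hbdd : BddBelow (Set.range A) := ⟨B 0, by rintro _ ⟨n, rfl⟩; exact hBAall 0 n⟩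
  have hκA : ∀ n, κ ≤ A n := fun n => ciInf_le hbdd n
  have hκB : ∀ n, B n ≤ κ := fun n => le_ciInf (fun m => hBAall n m)
  refine ⟨κ, ?_, ?_, ?_⟩
  · have e0 : A 0 = 1 - 1 / (1 - β) := by
      simp [hA, hs, hh]
    have e1 : B 0 = 1 - 1 / (1 - β) - 1 := by
      simp only [hB]
      rw [e0]
      simp
    have h1 := hκA 0
    have h2 := hκB 0
    rw [e0] at h1
    rw [e1] at h2
    have h3 : 0 < 1 / (1 - β) := by positivity
    rw [abs_le]
    constructor <;> linarith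
  · intro y hy
    have hN : 1 ≤ ⌊y⌋₊ := by
      rw [Nat.one_le_floor_iff]
      exact hy
    obtain ⟨n, hn⟩ : ∃ n, ⌊y⌋₊ = n + 1 := ⟨⌊y⌋₊ - 1, by omega⟩
    have hy0 : 0 < y := by linarith
    have hl : ((n + 1 : ℕ) : ℝ) ≤ y := by rw [← hn]; exact Nat.floor_le hy0.le
    have hu : y < ((n + 1 : ℕ) : ℝ) + 1 := by rw [← hn]; exact Nat.lt_floor_add_one y
    have hn1 : (0 : ℝ) < ((n + 1 : ℕ) : ℝ) := by positivity
    have hn2 : (1 : ℝ) ≤ ((n + 1 : ℕ) : ℝ) := by push_cast; linarith [(Nat.cast_nonneg n : (0 : ℝ) ≤ n)]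
    have hm := mvt hβ1 h0 hn1 hl
    have hup : h y - h ((n + 1 : ℕ) : ℝ) ≤ ((n + 1 : ℕ) : ℝ) ^ (-β) := by
      refine hm.2.trans ?_
      have : 0 ≤ ((n + 1 : ℕ) : ℝ) ^ (-β) := by positivity
      nlinarith
    have hlo : 0 ≤ h y - h ((n + 1 : ℕ) : ℝ) := by
      refine le_trans ?_ hm.1
      have : 0 ≤ y ^ (-β) := by positivity
      apply mul_nonneg _ this
      linarith
    have h2 : ((n + 1 : ℕ) : ℝ) ^ (-β) ≤ 2 * y ^ (-β) := by
      have e2 : (y / 2) ^ (-β) = (2 : ℝ) ^ β * y ^ (-β) := by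
        rw [Real.div_rpow hy0.le (by norm_num), Real.rpow_neg (by norm_num : (0 : ℝ) ≤ 2)]
        field_simp
      have e3 : ((n + 1 : ℕ) : ℝ) ^ (-β) ≤ (y / 2) ^ (-β) :=
        Real.rpow_le_rpow_of_nonpos (by linarith) (by linarith) (by linarith)
      have e4 : (2 : ℝ) ^ β ≤ 2 := by
        calc (2 : ℝ) ^ β ≤ (2 : ℝ) ^ (1 : ℝ) :=
              Real.rpow_le_rpow_of_exponent_le (by norm_num) hβ1.le
          _ = 2 := by simp
      rw [e2] at e3
      have : 0 ≤ y ^ (-β) := by positivity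
      nlinarith
    have hsum : ∑ m ∈ Icc 1 ⌊y⌋₊, (m : ℝ) ^ (-β) = s (n + 1) := by rw [hn]
    rw [hsum]
    have hk1 := hκA n
    have hk2 := hκB n
    simp only [hB, hA] at hk1 hk2
    change |s (n + 1) - h y - κ| ≤ _
    rw [abs_le]
    constructor <;> linarith
  · intro y hy
    have hy0 : 0 < y := by linarith
    have hH : ((harmonic ⌊y⌋₊ : ℚ) : ℝ) ≤ 1 + Real.log y := harmonic_floor_le_one_add_log y hy
    have e : ((harmonic ⌊y⌋₊ : ℚ) : ℝ) = ∑ m ∈ Icc 1 ⌊y⌋₊, ((m : ℝ))⁻¹ := by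
      rw [harmonic_eq_sum_Icc]
      push_cast
      rfl
    calc ∑ m ∈ Icc 1 ⌊y⌋₊, (m : ℝ) ^ (-β)
        ≤ ∑ m ∈ Icc 1 ⌊y⌋₊, y ^ (1 - β) * ((m : ℝ))⁻¹ := by
          apply Finset.sum_le_sum
          intro m hm
          rw [Finset.mem_Icc] at hm
          have hm0 : (0 : ℝ) < m := by exact_mod_cast hm.1
          have hmy : (m : ℝ) ≤ y := (Nat.cast_le.mpr hm.2).trans (Nat.floor_le hy0.le)
          have e1 : (m : ℝ) ^ (-β) = (m : ℝ) ^ (1 - β) * ((m : ℝ))⁻¹ := by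
            rw [show (-β : ℝ) = (1 - β) + (-1) by ring, Real.rpow_add hm0, Real.rpow_neg_one]
          rw [e1]
          apply mul_le_mul_of_nonneg_right _ (by positivity)
          exact Real.rpow_le_rpow hm0.le hmy hp.le
      _ = y ^ (1 - β) * ∑ m ∈ Icc 1 ⌊y⌋₊, ((m : ℝ))⁻¹ := by rw [Finset.mul_sum]
      _ ≤ y ^ (1 - β) * (1 + Real.log y) := by
          rw [← e]
          exact mul_le_mul_of_nonneg_left hH (by positivity)

end Pool.Agent.E8helper41.SG
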